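import Pool.Agent.Y766.R14.Stm
import Pool.Agent.Y929.R11.Sym
import Pool.Agent.H429R2.GP.XF

/-!
# Project R14: the functional equation in absolute value, close to the critical line
-/

set_option autoImplicit false

open Complex Filter Topology Set

namespace Pool.Agent.Y275.R14

/-- the quotient of the gamma factors near the critical line -/
lemma ratio (T : ℝ) (a : ℂ) (ha : 0 ≤ a.re) : ∃ δ : ℝ, 0 < δ ∧ δ ≤ 1 / 4 ∧
    ∀ u t : ℝ, 0 ≤ u → u ≤ δ → |t| ≤ T →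
    1 / 2 ≤ ‖Gammaℝ (1 / 2 + (u : ℂ) + t * I + a)‖ / ‖Gammaℝ (1 / 2 - (u : ℂ) + t * I + a)‖ ∧
    ‖Gammaℝ (1 / 2 + (u : ℂ) + t * I + a)‖ / ‖Gammaℝ (1 / 2 - (u : ℂ) + t * I + a)‖ ≤ 2 := by
  obtain ⟨F, hF⟩ : ∃ F : ℝ × ℝ → ℝ, ∀ z, F z = ‖Gammaℝ (1 / 2 + (z.1 : ℂ) + z.2 * I + a)‖ /
    ‖Gammaℝ (1 / 2 - (z.1 : ℂ) + z.2 * I + a)‖ := ⟨_, fun z => rfl⟩
  have hpos1 : ∀ u t : ℝ, 0 ≤ u → 0 < (1 / 2 + (u : ℂ) + t * I + a).re := by
    intro u t hu
    have : (1 / 2 + (u : ℂ) + t * I + a).re = 1 / 2 + u + a.re := by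
      simp
    rw [this]
    linarith
  have hpos2 : ∀ u t : ℝ, u ≤ 1 / 4 → 0 < (1 / 2 - (u : ℂ) + t * I + a).re := by
    intro u t hu
    have : (1 / 2 - (u : ℂ) + t * I + a).re = 1 / 2 - u + a.re := by
      simp
    rw [this]
    linarith
  have hcont : ContinuousOn F (Icc (0 : ℝ) (1 / 4) ×ˢ Icc (-T) T) := by
    rintro ⟨u, t⟩ ⟨⟨hu0, hu1⟩, -⟩
    apply ContinuousAt.continuousWithinAt
    have h1 := hpos1 u t hu0
    have h2 := hpos2 u t hu1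
    have c1 := (H429.GP.analyticAt_Gammaℝ_of_pos h1).continuousAt
    have c2 := (H429.GP.analyticAt_Gammaℝ_of_pos h2).continuousAt
    have e1 : ContinuousAt (fun z : ℝ × ℝ => Gammaℝ (1 / 2 + (z.1 : ℂ) + z.2 * I + a)) (u, t) :=
      ContinuousAt.comp (f := fun z : ℝ × ℝ => 1 / 2 + (z.1 : ℂ) + z.2 * I + a) (g := Gammaℝ) c1
        (by fun_prop)
    have e2 : ContinuousAt (fun z : ℝ × ℝ => Gammaℝ (1 / 2 - (z.1 : ℂ) + z.2 * I + a)) (u, t) :=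
      ContinuousAt.comp (f := fun z : ℝ × ℝ => 1 / 2 - (z.1 : ℂ) + z.2 * I + a) (g := Gammaℝ) c2
        (by fun_prop)
    have e3 := e1.norm.div e2.norm (norm_ne_zero_iff.2 (Gammaℝ_ne_zero_of_re_pos h2))
    have e4 : F = fun z : ℝ × ℝ => ‖Gammaℝ (1 / 2 + (z.1 : ℂ) + z.2 * I + a)‖ /
        ‖Gammaℝ (1 / 2 - (z.1 : ℂ) + z.2 * I + a)‖ := funext hF
    rw [e4]
    exact e3
  have huc := (isCompact_Icc.prod isCompact_Icc).uniformContinuousOn_of_continuous hcont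
  rw [Metric.uniformContinuousOn_iff] at huc
  obtain ⟨δ, hδ, h⟩ := huc (1 / 2) (by norm_num)
  refine ⟨min (δ / 2) (1 / 4), lt_min (by linarith) (by norm_num), min_le_right _ _,
    fun u t hu0 hu ht => ?_⟩
  have ht' := abs_le.mp ht
  have hu1 : u ≤ δ / 2 := hu.trans (min_le_left _ _)
  have h3 := h (u, t) ⟨⟨hu0, hu.trans (min_le_right _ _)⟩, ht'⟩ (0, t)
    ⟨⟨le_rfl, by norm_num⟩, ht'⟩ (by
      rw [Prod.dist_eq]
      refine max_lt ?_ ?_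
      · show dist u 0 < δ
        rw [Real.dist_eq, sub_zero, abs_of_nonneg hu0]
        linarith
      · show dist t t < δ
        rw [dist_self]
        exact hδ)
  have h4 : F (0, t) = 1 := by
    rw [hF]
    simp only [ofReal_zero, add_zero, sub_zero]
    have := hpos1 0 t le_rfl
    rw [ofReal_zero, add_zero] at this
    exact div_self (norm_ne_zero_iff.2 (Gammaℝ_ne_zero_of_re_pos this))
  rw [Real.dist_eq, h4, hF, abs_lt] at h3
  simp only at h3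
  exact ⟨by linarith [h3.1], by linarith [h3.2]⟩

variable {q : ℕ} [NeZero q] {χ : DirichletCharacter ℂ q}

lemma norm_q {x : ℝ} (hq : 1 < q) (t : ℝ) :
    ‖(q : ℂ) ^ (1 / 2 - (1 / 2 + (t : ℂ) * I - (x / Real.log q : ℝ)))‖ = Real.exp x := by
  have hq0 : (0 : ℝ) < q := by positivity
  have hlog : 0 < Real.log q := Real.log_pos (by exact_mod_cast hq)
  rw [Complex.norm_natCast_cpow_of_pos (by omega)]
  have : ∀ u : ℝ, (1 / 2 - (1 / 2 + (t : ℂ) * I - (u : ℂ))).re = u := by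
    intro u
    simp
  rw [this, Real.rpow_def_of_pos hq0, mul_div_cancel₀ _ hlog.ne']

lemma norm_eq (hχ : χ.IsPrimitive) (hq : 1 < q) {t x : ℝ} (hx0 : 0 ≤ x)
    (hx1 : x / Real.log q ≤ 1 / 4) :
    ‖χ.LFunction (1 / 2 + (t : ℂ) * I - (x / Real.log q : ℝ))‖ =
      Real.exp x *
      (‖Gammaℝ (1 / 2 + ((x / Real.log q : ℝ) : ℂ) + t * I + Pool.Agent.Y929.R11.aa χ)‖ /
        ‖Gammaℝ (1 / 2 - ((x / Real.log q : ℝ) : ℂ) + t * I + Pool.Agent.Y929.R11.aa χ)‖) *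
      ‖χ.LFunction (1 / 2 + (t : ℂ) * I + (x / Real.log q : ℝ))‖ := by
  have hlog : 0 < Real.log q := Real.log_pos (by exact_mod_cast hq)
  have hu0 : 0 ≤ x / Real.log q := by positivity
  have hn := norm_q (x := x) hq t
  set u : ℝ := x / Real.log q with hu
  have hre : (1 / 2 + (t : ℂ) * I - (u : ℂ)).re = 1 / 2 - u := by simp
  have hok : Pool.Agent.Y929.R11.Ok χ (1 / 2 + (t : ℂ) * I - (u : ℂ)) :=
    Pool.Agent.Y929.R11.ok_strip (by rw [hre]; linarith) (by rw [hre]; linarith)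
  have h1 := Pool.Agent.Y929.R11.func_eq hχ hok
  have haa : (starRingEnd ℂ) (Pool.Agent.Y929.R11.aa χ) = Pool.Agent.Y929.R11.aa χ := by
    rw [Complex.conj_eq_iff_im]
    exact Pool.Agent.Y929.R11.aa_im
  have h2 : (starRingEnd ℂ) (2 : ℂ) = 2 := by
    have := conj_natCast 2
    simpa using this
  have e1 : 1 - (1 / 2 + (t : ℂ) * I - (u : ℂ)) + Pool.Agent.Y929.R11.aa χ =
      (starRingEnd ℂ) (1 / 2 + (u : ℂ) + t * I + Pool.Agent.Y929.R11.aa χ) := by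
    simp only [map_add, map_mul, map_div₀, map_one, h2, conj_ofReal, conj_I, haa]
    ring
  have e2 : 1 / 2 + (t : ℂ) * I - (u : ℂ) + Pool.Agent.Y929.R11.aa χ =
      1 / 2 - (u : ℂ) + t * I + Pool.Agent.Y929.R11.aa χ := by ring
  have e3 : 1 - (starRingEnd ℂ) (1 / 2 + (t : ℂ) * I - (u : ℂ)) = 1 / 2 + (t : ℂ) * I + (u : ℂ) := by
    simp only [map_add, map_sub, map_mul, map_div₀, map_one, h2, conj_ofReal, conj_I]
    ring
  rw [h1, norm_mul]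
  unfold Pool.Agent.Y929.R11.XX Pool.Agent.Y929.R11.refl
  rw [e1, e2, e3, H429.GP.Gammaℝ_conj, norm_div, norm_mul, norm_mul,
    H429.GP.norm_rootNumber hχ, mul_one, RCLike.norm_conj, RCLike.norm_conj, hn]
  ring

/-- FEN -/
theorem fen : Pool.Agent.Y766.R14.S_FEN := by
  intro T R
  obtain ⟨δ₀, hδ₀, hδ₀', h₀⟩ := ratio T 0 (by simp)
  obtain ⟨δ₁, hδ₁, hδ₁', h₁⟩ := ratio T 1 (by simp)
  set δ := min δ₀ δ₁ with hδ
  have hδp : 0 < δ := lt_min hδ₀ hδ₁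
  refine ⟨Real.exp (|R| / δ), fun q _ hq hq1 χ hχ t x ht hx0 hxR => ?_⟩
  have hlog : 0 < Real.log q := Real.log_pos (by exact_mod_cast hq1)
  have hlog2 : |R| / δ ≤ Real.log q := by
    rw [← Real.log_exp (|R| / δ)]
    exact Real.log_le_log (Real.exp_pos _) hq
  have hu : x / Real.log q ≤ δ := by
    rw [div_le_iff₀ hlog]
    rw [div_le_iff₀ hδp] at hlog2
    have := le_abs_self R
    linarith
  have hu0 : 0 ≤ x / Real.log q := by positivity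
  have hg : 1 / 2 ≤ ‖Gammaℝ (1 / 2 + ((x / Real.log q : ℝ) : ℂ) + t * I +
        Pool.Agent.Y929.R11.aa χ)‖ /
        ‖Gammaℝ (1 / 2 - ((x / Real.log q : ℝ) : ℂ) + t * I + Pool.Agent.Y929.R11.aa χ)‖ ∧
      ‖Gammaℝ (1 / 2 + ((x / Real.log q : ℝ) : ℂ) + t * I + Pool.Agent.Y929.R11.aa χ)‖ /
        ‖Gammaℝ (1 / 2 - ((x / Real.log q : ℝ) : ℂ) + t * I + Pool.Agent.Y929.R11.aa χ)‖ ≤ 2 := by
    have ha : Pool.Agent.Y929.R11.aa χ = 0 ∨ Pool.Agent.Y929.R11.aa χ = 1 := by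
      unfold Pool.Agent.Y929.R11.aa
      split_ifs <;> simp
    rcases ha with ha | ha
    · rw [ha]
      exact h₀ _ _ hu0 (hu.trans (min_le_left _ _)) ht
    · rw [ha]
      exact h₁ _ _ hu0 (hu.trans (min_le_right _ _)) ht
  have hm := norm_eq hχ hq1 (t := t) hx0 (hu.trans ((min_le_left _ _).trans hδ₀'))
  rw [hm]
  set g := ‖Gammaℝ (1 / 2 + ((x / Real.log q : ℝ) : ℂ) + t * I + Pool.Agent.Y929.R11.aa χ)‖ /
        ‖Gammaℝ (1 / 2 - ((x / Real.log q : ℝ) : ℂ) + t * I + Pool.Agent.Y929.R11.aa χ)‖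
  set A := ‖χ.LFunction (1 / 2 + (t : ℂ) * I + (x / Real.log q : ℝ))‖ with hA
  have hA0 : 0 ≤ Real.exp x * A := by positivity
  obtain ⟨hg1, hg2⟩ := hg
  constructor
  · nlinarith
  · nlinarith

end Pool.Agent.Y275.R14
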